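import Pool.Agent.MDR.Bin

set_option autoImplicit false

/-! All binomial coefficients are at most `2 ^ N / √(N + 1)`. -/

namespace Pool.Agent.ISO85

theorem choose_sq_le (N a : ℕ) : (N + 1) * (N.choose a) ^ 2 ≤ 4 ^ N := by
  calc (N + 1) * (N.choose a) ^ 2 ≤ (N + 1) * (N.choose (N / 2)) ^ 2 :=
        Nat.mul_le_mul_left _ (Nat.pow_le_pow_left (Nat.choose_le_middle a N) 2)
    _ = (N.choose (N / 2)) ^ 2 * (N + 1) := Nat.mul_comm _ _
    _ ≤ 4 ^ N := Pool.Agent.MDR.choose_half_sq N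

end Pool.Agent.ISO85
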