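import Mathlib

/-!
# Weights of words with respect to coins

`wgt N W r`: the coins `r` are cut into blocks of `N`; the weight of `W` is the number of the coins
`true` in the blocks that belong to the bits `true` of `W`.
-/

set_option autoImplicit false

namespace Pool.Agent.ISO85

/-- the weight of the word `W` for the coins `r` -/
def wgt (N : ℕ) (W r : List Bool) : ℕ :=
  ((W.flatMap (fun b => List.replicate N b)).zip r).countP (fun p => p.1 && p.2)

end Pool.Agent.ISO85
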