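import Pool.Agent.ISO85.Few

/-!
# All languages in NP are polynomially enumerable

For `A` in NP and words `x₁, …, xₘ` let `c` be the number of the `xᵢ` in `A`.  The vector
`(A x₁, …, A xₘ)` is the only word `W` with `c` ones all of which are certified, so its parities are
decided by a language in NP.
-/

set_option autoImplicit false

namespace Pool.Agent.ISO85

open Pool.Agent.PolyTime Pool.Agent.NegLim Pool.Agent.SCS Turing

namespace EnumAux

open FewAux (ul ul_code length_code)

/-- the inputs -/
abbrev Inp : Type := (List (List Bool) × ℕ) × ℕ × List Bool × List Bool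

/-- the block length -/
def bl (e : ℕ) (xs : List (List Bool)) : ℕ := sz xs ^ e + e + 2

/-- the blocks of the certificate -/
def us (e : ℕ) (xs : List (List Bool)) (w : List Bool) : List (List Bool) :=
  ul (bl e xs) xs.length w

/-- all claimed memberships are certified -/
def okc (V : List Bool × List Bool → Bool) (e : ℕ) (p : List Bool × List Bool) : Bool :=
  !(p.2.headD false) || (decide (p.2.tail.length ≤ p.1.length ^ e + e) && V (p.1, p.2.tail))

/-- the vector of the claimed memberships -/
def vec (l : List (List Bool)) : List Bool := l.map fun u => u.headD false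

/-- the number of ones -/
def ones (W : List Bool) : ℕ := (W.filter fun b => b).length

/-- the verifier -/
def ver (V : List Bool × List Bool → Bool) (e : ℕ) (p : Inp × List Bool) : Bool :=
  (decide (p.2.length ≤ p.1.1.1.length * bl e p.1.1.1) &&
    ((p.1.1.1.zip (us e p.1.1.1 p.2)).all fun q => okc V e q)) &&
  (decide (ones (vec (us e p.1.1.1 p.2)) = p.1.1.2) &&
    parity p.1.2.2.2 (res p.1.2.2.1 ((vec (us e p.1.1.1 p.2)).take p.1.2.1)))

theorem length_us (e : ℕ) (xs : List (List Bool)) (w : List Bool) :
    (us e xs w).length = xs.length := by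
  unfold us ul
  rw [List.length_map, List.length_range]

theorem polyF_bl {α : Type} [Enc α] {X : α → List (List Bool)} (hX : PolyF X) (e : ℕ) :
    PolyF (fun a => bl e (X a)) := by
  have h1 : PolyF (fun a => sz (X a) ^ e + e) := (hX.size.pow e).add (PolyF.const e)
  exact (h1.succ).succ

theorem polyF_us (e : ℕ) : PolyF (fun p : Inp × List Bool => us e p.1.1.1 p.2) := by
  have q : PolyF (fun p : Inp × List Bool => p) := PolyF.id
  have r : PolyF (fun r : (Inp × List Bool) × ℕ => r) := PolyF.id
  refine PolyF.map (f := fun r : (Inp × List Bool) × ℕ =>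
    unpadW ((r.1.2.drop (r.2 * bl e r.1.1.1.1)).take (bl e r.1.1.1.1)))
    q.fst.fst.fst.length.range ?_
  exact polyF_unpadW (PolyF.take (polyF_bl r.fst.fst.fst.fst e)
    (PolyF.drop (r.snd.mul (polyF_bl r.fst.fst.fst.fst e)) r.fst.snd))

theorem polyF_okc {V : List Bool × List Bool → Bool} (hV : PolyF V) (e : ℕ) :
    PolyF (fun r : (Inp × List Bool) × (List Bool × List Bool) => okc V e r.2) := by
  have r : PolyF (fun r : (Inp × List Bool) × (List Bool × List Bool) => r) := PolyF.id
  have ht := r.snd.snd.tail
  exact ((r.snd.snd.headD false).not).or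
    ((ht.length.le ((r.snd.fst.length.pow e).add (PolyF.const e))).and (hV.comp (r.snd.fst.pair ht)))

theorem polyF_ver {V : List Bool × List Bool → Bool} (hV : PolyF V) (e : ℕ) :
    PolyF (ver V e) := by
  have q : PolyF (fun p : Inp × List Bool => p) := PolyF.id
  have hus := polyF_us e
  have hall : PolyF (fun p : Inp × List Bool =>
      (p.1.1.1.zip (us e p.1.1.1 p.2)).all fun x => okc V e x) :=
    PolyF.all (p := fun r : (Inp × List Bool) × (List Bool × List Bool) => okc V e r.2)
      (q.fst.fst.fst.zip hus) (polyF_okc hV e)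
  have hvec : PolyF (fun p : Inp × List Bool => vec (us e p.1.1.1 p.2)) := by
    have r : PolyF (fun r : (Inp × List Bool) × List Bool => r) := PolyF.id
    exact PolyF.map (f := fun r : (Inp × List Bool) × List Bool => r.2.headD false) hus
      (r.snd.headD false)
  have hones : PolyF (fun p : Inp × List Bool => ones (vec (us e p.1.1.1 p.2))) := by
    have r : PolyF (fun r : (Inp × List Bool) × Bool => r) := PolyF.id
    exact PolyF.length (PolyF.filter (p := fun r : (Inp × List Bool) × Bool => r.2) hvec r.snd)
  exact ((q.snd.length.le (q.fst.fst.fst.length.mul (polyF_bl q.fst.fst.fst e))).and hall).and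
    ((hones.eqNat q.fst.fst.snd).and (polyF_parity q.fst.snd.snd.snd
      (polyF_res q.fst.snd.snd.fst (PolyF.take q.fst.snd.fst hvec))))

theorem ones_cons (b : Bool) (W : List Bool) : ones (b :: W) = (if b = true then 1 else 0) + ones W := by
  unfold ones
  cases b
  · simp
  · simp [add_comm]

theorem ones_le {W' W : List Bool} (h : List.Forall₂ (fun a b => a = true → b = true) W' W) :
    ones W' ≤ ones W := by
  induction h with
  | nil => exact le_rfl
  | @cons a b l l' hab _ ih =>
    rw [ones_cons, ones_cons]
    cases a
    · cases b <;> simp <;> omega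
    · rw [hab rfl]
      omega

theorem eq_of_ones {W' W : List Bool} (h : List.Forall₂ (fun a b => a = true → b = true) W' W)
    (hc : ones W ≤ ones W') : W' = W := by
  induction h with
  | nil => rfl
  | @cons a b l l' hab ht ih =>
    have h1 := ones_le ht
    rw [ones_cons, ones_cons] at hc
    cases a
    · cases b
      · rw [ih (by simpa using hc)]
      · exfalso
        simp at hc
        omega
    · rw [hab rfl] at hc ⊢
      rw [ih (by omega)]

theorem mem_zip_map {β : Type} (g : List Bool → β) : ∀ xs : List (List Bool),
    ∀ p ∈ xs.zip (xs.map g), p.1 ∈ xs ∧ p.2 = g p.1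
  | [], p, hp => by simp at hp
  | x :: t, p, hp => by
    rw [List.map_cons, List.zip_cons_cons, List.mem_cons] at hp
    rcases hp with rfl | hp
    · exact ⟨List.mem_cons_self, rfl⟩
    · obtain ⟨h1, h2⟩ := mem_zip_map g t p hp
      exact ⟨List.mem_cons_of_mem _ h1, h2⟩

/-- the test language -/
theorem exists_test {A : List Bool → Bool} (hA : InNP A) :
    ∃ T : List Bool → Bool, InNP T ∧ ∀ (xs : List (List Bool)) (k : ℕ) (f v : List Bool),
      T (enc ((xs, ones (xs.map A)), k, f, v)) = true ↔
        parity v (res f ((xs.map A).take k)) = true := by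
  obtain ⟨V, e, hV, hVA⟩ := InNP.exists_V hA
  have q : PolyF (fun p : Inp => p) := PolyF.id
  have hbd : PolyBd (fun a : Inp => a.1.1.length * bl e a.1.1) :=
    PolyF.natBd (q.fst.fst.length.mul (polyF_bl q.fst.fst e))
  obtain ⟨T, hT, hTV⟩ := exists_inNP (polyF_ver hV e) hbd (by
    intro a w h
    unfold ver at h
    simp only [Bool.and_eq_true, decide_eq_true_eq] at h
    exact h.1.1)
  refine ⟨T, hT, ?_⟩
  intro xs k f v
  rw [hTV]
  constructor
  · rintro ⟨w, hw⟩
    unfold ver at hw
    simp only [Bool.and_eq_true, decide_eq_true_eq, List.all_eq_true] at hw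
    obtain ⟨⟨-, h1⟩, h2, h3⟩ := hw
    have h4 : List.Forall₂ (fun a b => a = true → b = true) (vec (us e xs w)) (xs.map A) := by
      unfold vec
      rw [List.forall₂_map_left_iff, List.forall₂_map_right_iff, List.forall₂_iff_zip]
      refine ⟨length_us e xs w, ?_⟩
      intro u x hux hu
      have h5 : (x, u) ∈ xs.zip (us e xs w) := by
        rw [← List.zip_swap, List.mem_map]
        exact ⟨(u, x), hux, rfl⟩
      have h6 := h1 _ h5
      unfold okc at h6
      simp only [hu, Bool.not_true, Bool.false_or, Bool.and_eq_true, decide_eq_true_eq] at h6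
      exact (hVA x).2 ⟨u.tail, h6.1, h6.2⟩
    have h5 := eq_of_ones h4 h2.ge
    rw [h5] at h3
    exact h3
  · intro hpar
    have hu : ∀ x, ∃ u : List Bool, A x = true → u.length ≤ x.length ^ e + e ∧ V (x, u) = true := by
      intro x
      by_cases hx : A x = true
      · obtain ⟨u, hu⟩ := (hVA x).1 hx
        exact ⟨u, fun _ => hu⟩
      · exact ⟨[], fun h => absurd h hx⟩
    choose u hu using hu
    have hlt : ∀ z ∈ xs.map (fun x => if A x = true then true :: u x else []),
        z.length < bl e xs := by
      intro z hz
      rw [List.mem_map] at hz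
      obtain ⟨x, hx, rfl⟩ := hz
      have h1 : x.length ≤ sz xs := by
        have := sz_le_of_mem hx
        rwa [sz_word] at this
      have h2 : x.length ^ e ≤ sz xs ^ e := Nat.pow_le_pow_left h1 e
      unfold bl
      by_cases hAx : A x = true
      · rw [if_pos hAx, List.length_cons]
        have := (hu x hAx).1
        omega
      · rw [if_neg hAx, List.length_nil]
        omega
    have hc := ul_code (bl e xs) _ hlt
    have hlen := length_code (bl e xs) _ hlt
    rw [List.length_map] at hc hlen
    refine ⟨((xs.map (fun x => if A x = true then true :: u x else [])).map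
      (padW (bl e xs))).flatten, ?_⟩
    have hus : us e xs ((xs.map (fun x => if A x = true then true :: u x else [])).map
      (padW (bl e xs))).flatten = xs.map (fun x => if A x = true then true :: u x else []) := hc
    have hvec : vec (xs.map (fun x => if A x = true then true :: u x else [])) = xs.map A := by
      unfold vec
      rw [List.map_map]
      refine List.map_congr_left fun x _ => ?_
      by_cases hAx : A x = true
      · simp [hAx]
      · rw [Bool.not_eq_true] at hAx
        simp [hAx]
    unfold ver
    simp only [Bool.and_eq_true, decide_eq_true_eq, List.all_eq_true, hus, hvec]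
    refine ⟨⟨hlen.le, ?_⟩, trivial, hpar⟩
    intro p hp
    obtain ⟨hp1, hp2⟩ := mem_zip_map _ xs p hp
    unfold okc
    rw [hp2]
    by_cases hAx : A p.1 = true
    · rw [if_pos hAx]
      simp only [List.headD_cons, Bool.not_true, List.tail_cons, Bool.false_or, Bool.and_eq_true]
      exact ⟨decide_eq_true (hu p.1 hAx).1, (hu p.1 hAx).2⟩
    · rw [if_neg hAx]
      rfl

end EnumAux

open EnumAux

theorem enum_of_sparse {B : List Bool → Bool} (hB : Sparse B)
    (hred : ∀ A, InNP A → ThrReduces A B) {A : List Bool → Bool} (hA : InNP A) :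
    ∃ C : List (List Bool) → List (List Bool), PolyF C ∧ ∀ xs, xs.map A ∈ C xs := by
  obtain ⟨T, hT, hTs⟩ := EnumAux.exists_test hA
  obtain ⟨d, R, hR, hRd, hRs⟩ := (hred T hT).typed
  have r : PolyF (fun r : List (List Bool) × ℕ => r) := PolyF.id
  obtain ⟨Cand, hCand, hC⟩ := lemmaA (α := List (List Bool) × ℕ) B hB d (fun p => R (enc p))
    (hR.comp PolyF.id.encF) (fun p => hRd (enc p)) (fun a => a.1.length) r.fst.length
  refine ⟨fun xs => (List.range (xs.length + 1)).flatMap fun c => Cand (xs, c), ?_, ?_⟩
  · have q : PolyF (fun xs : List (List Bool) => xs) := PolyF.id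
    exact PolyF.flatMap (f := Cand) q.length.succ.range hCand
  · intro xs
    rw [List.mem_flatMap]
    refine ⟨ones (xs.map A), ?_, ?_⟩
    · rw [List.mem_range]
      have h1 : ones (xs.map A) ≤ (xs.map A).length := List.length_filter_le _ _
      rw [List.length_map] at h1
      omega
    · refine hC (xs, ones (xs.map A)) _ (List.length_map _) ?_
      intro k _ f v _
      rw [← hRs, hTs]

/-- if a sparse or co-sparse set is hard for NP, all languages in NP are polynomially enumerable -/
theorem enum_of_hard {B : List Bool → Bool} (hB : Sparse B ∨ Sparse (fun x => !B x))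
    (hred : ∀ A, InNP A → ThrReduces A B) (A : List Bool → Bool) (hA : InNP A) :
    ∃ C : List (List Bool) → List (List Bool),
      Nonempty (TM2ComputableInPolyTime codeWords codeWords C) ∧ ∀ xs, xs.map A ∈ C xs := by
  obtain ⟨C, hC, h⟩ : ∃ C : List (List Bool) → List (List Bool), PolyF C ∧
      ∀ xs, xs.map A ∈ C xs := by
    rcases hB with hB | hB
    · exact enum_of_sparse hB hred hA
    · exact enum_of_sparse hB (fun A hA => (hred A hA).compl) hA
  refine ⟨C, ?_, h⟩
  obtain ⟨g, hg, hgC⟩ := hC
  obtain ⟨M⟩ := hg.polyTime
  refine ⟨⟨M.toTM2ComputableAux, M.time, fun a => ?_⟩⟩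
  have h1 := M.outputsFun (codeWords a)
  have h2 : g (codeWords a) = codeWords (C a) := by
    rw [StmtAux.codeWords_eq, StmtAux.codeWords_eq]
    exact hgC a
  rw [show (id (g (codeWords a)) : List Bool) = codeWords (C a) from h2] at h1
  exact h1

end Pool.Agent.ISO85
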