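import Pool.Agent.SCS.Main

/-!
# P = FewP from a sparse set which is hard for NP under threshold reductions

`InFewP`: as NP, and every word has at most polynomially many certificates.  Test language
`((x, c), k, f, v)`: there is a strictly increasing list of `c` certificates of `x`, and the first
one, padded, has the parity `v` of the residue modulo `f` of its first `k` bits.  For `c` = the
number of the certificates the list is unique.
-/

set_option autoImplicit false

namespace Pool.Agent.ISO85

open Pool.Agent.SCS Pool.Agent.PolyTime Pool.Agent.NegLim Turing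

/-- the language with characteristic function `L` is in FewP: as NP, and every word has at most
polynomially many certificates -/
def InFewP (L : List Bool → Bool) : Prop :=
  ∃ (V : List Bool → Bool) (k : ℕ),
    Nonempty (TM2ComputableInPolyTime (id : List Bool → List Bool)
      (id : List Bool → List Bool) (fun y => [V y])) ∧
    (∀ x, L x = true ↔ ∃ w : List Bool, w.length ≤ x.length ^ k + k ∧ V (pairWord x w) = true) ∧
    ∀ x, {w : List Bool | w.length ≤ x.length ^ k + k ∧ V (pairWord x w) = true}.ncard
      ≤ x.length ^ k + k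

namespace FewAux

/-- the inputs -/
abbrev Inp : Type := (List Bool × ℕ) × ℕ × List Bool × List Bool

/-- the `c` words coded by `w` in blocks of length `m` -/
def ul (m c : ℕ) (w : List Bool) : List (List Bool) :=
  (List.range c).map fun i => unpadW ((w.drop (i * m)).take m)

theorem ul_code (m : ℕ) : ∀ l : List (List Bool), (∀ u ∈ l, u.length < m) →
    ul m l.length (l.map (padW m)).flatten = l
  | [], _ => rfl
  | u :: t, h => by
    have hu : (padW m u).length = m := length_padW (h u List.mem_cons_self)
    have ih := ul_code m t fun z hz => h z (List.mem_cons_of_mem _ hz)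
    unfold ul at ih ⊢
    rw [List.length_cons, List.range_succ_eq_map, List.map_cons, List.map_map, List.map_cons,
      List.flatten_cons]
    congr 1
    · show unpadW (((padW m u ++ (t.map (padW m)).flatten).drop (0 * m)).take m) = u
      rw [Nat.zero_mul, List.drop_zero, List.take_append_of_le_length hu.ge,
        List.take_of_length_le hu.le, unpadW_padW]
    · refine Eq.trans (List.map_congr_left fun i _ => ?_) ih
      show unpadW (((padW m u ++ (t.map (padW m)).flatten).drop ((i + 1) * m)).take m) = _
      have h1 : (i + 1) * m = (padW m u).length + i * m := by rw [hu]; ring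
      rw [h1, List.drop_length_add_append]

theorem length_code (m : ℕ) : ∀ l : List (List Bool), (∀ u ∈ l, u.length < m) →
    (l.map (padW m)).flatten.length = l.length * m
  | [], _ => by simp
  | u :: t, h => by
    have hu : (padW m u).length = m := length_padW (h u List.mem_cons_self)
    have ih := length_code m t fun z hz => h z (List.mem_cons_of_mem _ hz)
    rw [List.map_cons, List.flatten_cons, List.length_append, hu, ih, List.length_cons]
    ring

/-- the list is strictly increasing -/
def inc (l : List (List Bool)) : Bool := (l.zip l.tail).all fun p => ltB p.1 p.2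

theorem inc_iff : ∀ l : List (List Bool),
    inc l = true ↔ l.Pairwise (fun x y => ltB x y = true)
  | [] => by simp [inc]
  | [a] => by simp [inc]
  | a :: b :: t => by
    have ih := inc_iff (b :: t)
    unfold inc at ih ⊢
    rw [List.pairwise_cons, ← ih]
    simp only [List.tail_cons, List.zip_cons_cons, List.all_cons, Bool.and_eq_true]
    constructor
    · rintro ⟨h1, h2⟩
      refine ⟨?_, h2⟩
      have h3 := ih.1 h2
      intro y hy
      rcases List.mem_cons.1 hy with rfl | hy
      · exact h1
      · exact ltB_trans h1 ((List.pairwise_cons.1 h3).1 y hy)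
    · rintro ⟨h1, h2⟩
      exact ⟨h1 b List.mem_cons_self, h2⟩

/-- the verifier -/
def ver (V : List Bool × List Bool → Bool) (e : ℕ) (p : Inp × List Bool) : Bool :=
  (decide (p.2.length ≤ p.1.1.2 * (p.1.1.1.length ^ e + e + 1)) &&
    ((ul (p.1.1.1.length ^ e + e + 1) p.1.1.2 p.2).all fun u =>
      decide (u.length ≤ p.1.1.1.length ^ e + e) && V (p.1.1.1, u))) &&
  (inc (ul (p.1.1.1.length ^ e + e + 1) p.1.1.2 p.2) &&
    parity p.1.2.2.2 (res p.1.2.2.1 ((padW (p.1.1.1.length ^ e + e + 1)
      ((ul (p.1.1.1.length ^ e + e + 1) p.1.1.2 p.2).headD [])).take p.1.2.1)))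

theorem polyF_ver {V : List Bool × List Bool → Bool} (hV : PolyF V) (e : ℕ) :
    PolyF (ver V e) := by
  have q : PolyF (fun p : Inp × List Bool => p) := PolyF.id
  have hx := q.fst.fst.fst
  have hc := q.fst.fst.snd
  have hm0 : PolyF (fun p : Inp × List Bool => p.1.1.1.length ^ e + e) :=
    (hx.length.pow e).add (PolyF.const e)
  have hm : PolyF (fun p : Inp × List Bool => p.1.1.1.length ^ e + e + 1) := hm0.succ
  have hul : PolyF (fun p : Inp × List Bool =>
      ul (p.1.1.1.length ^ e + e + 1) p.1.1.2 p.2) := by
    have r : PolyF (fun r : (Inp × List Bool) × ℕ => r) := PolyF.id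
    refine PolyF.map (f := fun r : (Inp × List Bool) × ℕ =>
      unpadW ((r.1.2.drop (r.2 * (r.1.1.1.1.length ^ e + e + 1))).take
        (r.1.1.1.1.length ^ e + e + 1))) hc.range ?_
    exact polyF_unpadW (PolyF.take (hm.comp r.fst)
      (PolyF.drop (r.snd.mul (hm.comp r.fst)) r.fst.snd))
  have hall : PolyF (fun p : Inp × List Bool =>
      (ul (p.1.1.1.length ^ e + e + 1) p.1.1.2 p.2).all fun u =>
        decide (u.length ≤ p.1.1.1.length ^ e + e) && V (p.1.1.1, u)) := by
    have r : PolyF (fun r : (Inp × List Bool) × List Bool => r) := PolyF.id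
    exact PolyF.all (p := fun r : (Inp × List Bool) × List Bool =>
      decide (r.2.length ≤ r.1.1.1.1.length ^ e + e) && V (r.1.1.1.1, r.2)) hul
      ((r.snd.length.le (hm0.comp r.fst)).and (hV.comp (r.fst.fst.fst.fst.pair r.snd)))
  have hinc : PolyF (fun p : Inp × List Bool =>
      inc (ul (p.1.1.1.length ^ e + e + 1) p.1.1.2 p.2)) := by
    have r : PolyF (fun r : (Inp × List Bool) × (List Bool × List Bool) => r) := PolyF.id
    exact PolyF.all (p := fun r : (Inp × List Bool) × (List Bool × List Bool) =>
      ltB r.2.1 r.2.2) (hul.zip hul.tail) (polyF_ltB r.snd.fst r.snd.snd)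
  exact ((q.snd.length.le (hc.mul hm)).and hall).and (hinc.and
    (polyF_parity q.fst.snd.snd.snd (polyF_res q.fst.snd.snd.fst (PolyF.take q.fst.snd.fst
      (polyF_padW hm (hul.headD []))))))

/-- the test language -/
theorem exists_test {V : List Bool × List Bool → Bool} (hV : PolyF V) (e : ℕ) :
    ∃ T : List Bool → Bool, InNP T ∧ ∀ (x : List Bool) (c k : ℕ) (f v : List Bool),
      T (enc ((x, c), k, f, v)) = true ↔
        ∃ l : List (List Bool), l.Pairwise (fun x y => ltB x y = true) ∧ l.length = c ∧
          (∀ u ∈ l, u.length ≤ x.length ^ e + e ∧ V (x, u) = true) ∧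
          parity v (res f ((padW (x.length ^ e + e + 1) (l.headD [])).take k)) = true := by
  have q : PolyF (fun p : Inp => p) := PolyF.id
  have hbd : PolyBd (fun a : Inp => a.1.2 * (a.1.1.length ^ e + e + 1)) :=
    PolyF.natBd (q.fst.snd.mul (((q.fst.fst.length.pow e).add (PolyF.const e)).succ))
  obtain ⟨T, hT, hTV⟩ := exists_inNP (polyF_ver hV e) hbd (by
    intro a w h
    unfold ver at h
    simp only [Bool.and_eq_true, decide_eq_true_eq] at h
    exact h.1.1)
  refine ⟨T, hT, ?_⟩
  intro x c k f v
  rw [hTV]
  constructor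
  · rintro ⟨w, hw⟩
    unfold ver at hw
    simp only [Bool.and_eq_true, decide_eq_true_eq, List.all_eq_true] at hw
    obtain ⟨⟨-, h1⟩, h2, h3⟩ := hw
    refine ⟨ul (x.length ^ e + e + 1) c w, (inc_iff _).1 h2, ?_, h1, h3⟩
    unfold ul
    rw [List.length_map, List.length_range]
  · rintro ⟨l, h1, h2, h3, h4⟩
    have hlt : ∀ u ∈ l, u.length < x.length ^ e + e + 1 := fun u hu =>
      Nat.lt_succ_of_le (h3 u hu).1
    have hc := ul_code _ l hlt
    have hlen := length_code _ l hlt
    rw [h2] at hc hlen
    refine ⟨(l.map (padW (x.length ^ e + e + 1))).flatten, ?_⟩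
    unfold ver
    simp only [Bool.and_eq_true, decide_eq_true_eq, List.all_eq_true, hc]
    exact ⟨⟨hlen.le, h3⟩, (inc_iff _).2 h1, h4⟩

theorem nodup_of_inc {l : List (List Bool)} (h : l.Pairwise (fun x y => ltB x y = true)) :
    l.Nodup := by
  refine List.Pairwise.imp ?_ h
  intro x y hxy hxy'
  subst hxy'
  rw [ltB_irrefl] at hxy
  exact absurd hxy (by decide)

end FewAux

open FewAux

theorem inP_of_few {B : List Bool → Bool} (hB : Sparse B) (hred : ∀ A, InNP A → ThrReduces A B)
    {L : List Bool → Bool} (hL : InFewP L) : InP L := by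
  obtain ⟨V₀, e, h1, hLiff, hfew⟩ := hL
  obtain ⟨V, hV, hVV⟩ : ∃ V : List Bool × List Bool → Bool, PolyF V ∧
      ∀ x w, V (x, w) = V₀ (pairWord x w) :=
    ⟨_, ClassesAux.polyF_pairV (ClassesAux.pc_bool_of_tm h1), fun _ _ => rfl⟩
  simp only [← hVV] at hLiff hfew
  have hm0 : PolyF (fun x : List Bool => x.length ^ e + e) :=
    ((PolyF.length PolyF.id).pow e).add (PolyF.const e)
  have hm : PolyF (fun x : List Bool => x.length ^ e + e + 1) := hm0.succ
  obtain ⟨T, hT, hTs⟩ := FewAux.exists_test hV e
  obtain ⟨d, R, hR, hRd, hRs⟩ := (hred T hT).typed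
  obtain ⟨Cand, hCand, hC⟩ := lemmaA (α := List Bool × ℕ) B hB d (fun p => R (enc p))
    (hR.comp PolyF.id.encF) (fun p => hRd (enc p))
    (fun a => a.1.length ^ e + e + 1) (hm.comp PolyF.id.fst)
  have hdec : ∀ x, ((List.range (x.length ^ e + e + 1)).any fun c => (Cand (x, c)).any fun W =>
      decide ((unpadW W).length ≤ x.length ^ e + e) && V (x, unpadW W)) = L x := by
    intro x
    rw [Bool.eq_iff_iff, hLiff x, List.any_eq_true]
    constructor
    · rintro ⟨c, -, hc⟩
      rw [List.any_eq_true] at hc
      obtain ⟨W, -, hW⟩ := hc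
      rw [Bool.and_eq_true, decide_eq_true_eq] at hW
      exact ⟨unpadW W, hW.1, hW.2⟩
    · rintro ⟨w, hw, hVw⟩
      have hfin : {w : List Bool | w.length ≤ x.length ^ e + e ∧ V (x, w) = true}.Finite :=
        (List.finite_length_le Bool (x.length ^ e + e)).subset fun _ hx => hx.1
      obtain ⟨l, hl1, hl2, hl3⟩ := exists_sorted hfin.toFinset
      have hmem : ∀ u, u ∈ l ↔ u.length ≤ x.length ^ e + e ∧ V (x, u) = true := by
        intro u
        rw [← List.mem_toFinset, hl2, Set.Finite.mem_toFinset]
        rfl
      have hc : l.length ≤ x.length ^ e + e := by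
        have h2 := hfew x
        rw [Set.ncard_eq_toFinset_card _ hfin, ← hl3] at h2
        exact h2
      have hwl : w ∈ l := (hmem w).2 ⟨hw, hVw⟩
      have hhd : l.headD [] ∈ l := by
        cases l with
        | nil => exact absurd hwl List.not_mem_nil
        | cons a t => exact List.mem_cons_self
      obtain ⟨hh1, hh2⟩ := (hmem _).1 hhd
      refine ⟨l.length, List.mem_range.2 (by omega), ?_⟩
      rw [List.any_eq_true]
      refine ⟨padW (x.length ^ e + e + 1) (l.headD []), ?_, ?_⟩
      · refine hC (x, l.length) _ (length_padW (Nat.lt_succ_of_le hh1)) ?_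
        intro k _ f v _
        rw [← hRs, hTs]
        constructor
        · rintro ⟨l', g1, g2, g3, g4⟩
          have he : l' = l := by
            refine sorted_unique g1 hl1 fun y => ?_
            have hsub : l' ⊆ l := fun y hy => (hmem y).2 (g3 y hy)
            have hsp : l'.Subperm l := List.subperm_of_subset (nodup_of_inc g1) hsub
            exact (hsp.perm_of_length_le g2.ge).mem_iff
          rwa [he] at g4
        · intro h4
          exact ⟨l, hl1, rfl, fun y hy => (hmem y).1 hy, h4⟩
      · rw [unpadW_padW, Bool.and_eq_true, decide_eq_true_eq]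
        exact ⟨hh1, hh2⟩
  rw [inP_iff]
  have r : PolyF (fun r : (List Bool × ℕ) × List Bool => r) := PolyF.id
  have hin : PolyF (fun p : List Bool × ℕ => (Cand p).any fun W =>
      decide ((unpadW W).length ≤ p.1.length ^ e + e) && V (p.1, unpadW W)) :=
    PolyF.any (p := fun r : (List Bool × ℕ) × List Bool =>
      decide ((unpadW r.2).length ≤ r.1.1.length ^ e + e) && V (r.1.1, unpadW r.2)) hCand
      (((polyF_unpadW r.snd).length.le (hm0.comp r.fst.fst)).and
        (hV.comp (r.fst.fst.pair (polyF_unpadW r.snd))))
  exact (PolyF.any (p := fun p : List Bool × ℕ => (Cand p).any fun W =>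
      decide ((unpadW W).length ≤ p.1.length ^ e + e) && V (p.1, unpadW W)) hm.range hin).congr
    hdec

/-- the same for a sparse or a co-sparse set -/
theorem inP_of_few' {B : List Bool → Bool} (hB : Sparse B ∨ Sparse (fun x => !B x))
    (hred : ∀ A, InNP A → ThrReduces A B) {L : List Bool → Bool} (hL : InFewP L) : InP L := by
  rcases hB with hB | hB
  · exact inP_of_few hB hred hL
  · exact inP_of_few hB (fun A hA => (hred A hA).compl) hL

end Pool.Agent.ISO85
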