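import Pool.Agent.ISO85.Defs
import Pool.Agent.ISO85.Binom

/-!
# The isolation lemma with coins

If the weight of every index is the number of ones in its block of `N ≥ 4 m ^ 2` coins, then for at
least half of the coins the word of least weight is unique.
-/

set_option autoImplicit false

namespace Pool.Agent.ISO85

open Classical

/-- the words of length `n` -/
noncomputable def VF (n : ℕ) : Finset (List Bool) := (List.finite_length_eq Bool n).toFinset

theorem mem_VF {n : ℕ} {l : List Bool} : l ∈ VF n ↔ l.length = n := by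
  simp [VF]

theorem card_VF (n : ℕ) : (VF n).card = 2 ^ n := by
  have h : (VF n).card = Nat.card (List.Vector Bool n) := by
    unfold VF
    rw [← Set.ncard_eq_toFinset_card _ (List.finite_length_eq Bool n)]
    rfl
  rw [h, Nat.card_eq_fintype_card, card_vector, Fintype.card_bool]

theorem card_count (n : ℕ) : ∀ t : ℕ, ((VF n).filter (fun l => l.count true = t)).card ≤ n.choose t := by
  induction n with
  | zero =>
    intro t
    rcases t with _ | t
    · simpa [card_VF] using Finset.card_filter_le (VF 0) (fun l => l.count true = 0)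
    · have : (VF 0).filter (fun l => l.count true = t + 1) = ∅ := by
        apply Finset.filter_eq_empty_iff.2
        intro l hl
        rw [mem_VF, List.length_eq_zero_iff] at hl
        subst hl
        simp
      rw [this]; simp
  | succ n ih =>
    intro t
    rcases t with _ | t
    · have hsub : (VF (n + 1)).filter (fun l => l.count true = 0) ⊆
          ((VF n).filter (fun l => l.count true = 0)).image (List.cons false) := by
        intro l hl
        rw [Finset.mem_filter, mem_VF] at hl
        obtain ⟨h1, h2⟩ := hl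
        rcases l with _ | ⟨b, l⟩
        · simp at h1
        · cases b
          · refine Finset.mem_image.2 ⟨l, ?_, rfl⟩
            rw [Finset.mem_filter, mem_VF]
            exact ⟨by simpa using h1, by simpa using h2⟩
          · simp at h2
      calc _ ≤ _ := Finset.card_le_card hsub
        _ ≤ _ := Finset.card_image_le
        _ ≤ _ := ih 0
        _ = (n + 1).choose 0 := by simp
    · have hsub : (VF (n + 1)).filter (fun l => l.count true = t + 1) ⊆
          ((VF n).filter (fun l => l.count true = t)).image (List.cons true) ∪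
          ((VF n).filter (fun l => l.count true = t + 1)).image (List.cons false) := by
        intro l hl
        rw [Finset.mem_filter, mem_VF] at hl
        obtain ⟨h1, h2⟩ := hl
        rcases l with _ | ⟨b, l⟩
        · simp at h1
        · cases b
          · refine Finset.mem_union_right _ (Finset.mem_image.2 ⟨l, ?_, rfl⟩)
            rw [Finset.mem_filter, mem_VF]
            exact ⟨by simpa using h1, by simpa using h2⟩
          · refine Finset.mem_union_left _ (Finset.mem_image.2 ⟨l, ?_, rfl⟩)
            rw [Finset.mem_filter, mem_VF]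
            exact ⟨by simpa using h1, by simpa using h2⟩
      calc _ ≤ _ := Finset.card_le_card hsub
        _ ≤ _ := Finset.card_union_le _ _
        _ ≤ _ := Nat.add_le_add (Finset.card_image_le.trans (ih t)) (Finset.card_image_le.trans (ih (t + 1)))
        _ = (n + 1).choose (t + 1) := (Nat.choose_succ_succ n t).symm

theorem wgt_append (N : ℕ) (W1 W2 a b : List Bool) (h : a.length = W1.length * N) :
    wgt N (W1 ++ W2) (a ++ b) = wgt N W1 a + wgt N W2 b := by
  unfold wgt
  rw [List.flatMap_append, List.zip_append, List.countP_append]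
  rw [List.length_flatMap, h]
  simp

theorem wgt_single (N : ℕ) (w : Bool) (x : List Bool) (h : x.length = N) :
    wgt N [w] x = if w = true then x.count true else 0 := by
  unfold wgt
  subst h
  have : ∀ x : List Bool, ((List.replicate x.length w).zip x).countP (fun p => p.1 && p.2) =
      if w = true then x.count true else 0 := by
    intro x
    induction x with
    | nil => simp
    | cons c x ih =>
      rw [List.length_cons, List.replicate_succ, List.zip_cons_cons, List.countP_cons, ih]
      cases w <;> cases c <;> simp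
  simpa using this x

/-- changing one block -/
theorem wgt_block (N i m : ℕ) (W a b x y : List Bool) (hW : W.length = m) (hi : i < m)
    (ha : a.length = i * N) (hx : x.length = N) (hy : y.length = N) :
    wgt N W (a ++ (x ++ b)) + (if W[i]? = some true then y.count true else 0) =
    wgt N W (a ++ (y ++ b)) + (if W[i]? = some true then x.count true else 0) := by
  subst hW
  have hs : W = W.take i ++ ([W[i]] ++ W.drop (i + 1)) := by
    simp
  have hl : (W.take i).length = i := by simp; omega
  have h1 : ∀ z : List Bool, z.length = N → wgt N W (a ++ (z ++ b)) =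
      wgt N (W.take i) a + ((if W[i] = true then z.count true else 0) + wgt N (W.drop (i + 1)) b) := by
    intro z hz
    conv_lhs => rw [hs]
    rw [wgt_append _ _ _ _ _ (by rw [hl, ha]), wgt_append _ _ _ _ _ (by simpa using hz),
      wgt_single _ _ _ hz]
  rw [h1 x hx, h1 y hy]
  have h2 : W[i]? = some W[i] := List.getElem?_eq_getElem hi
  rw [h2]
  by_cases h3 : W[i] = true
  · simp [h3]; omega
  · simp [h3]

/-- two words of least weight that differ at `i` -/
def BadAt (N : ℕ) (F : Set (List Bool)) (i : ℕ) (r : List Bool) : Prop :=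
  ∃ W1 ∈ F, ∃ W0 ∈ F, W1[i]? = some true ∧ W0[i]? ≠ some true ∧
    (∀ W ∈ F, wgt N W1 r ≤ wgt N W r) ∧ (∀ W ∈ F, wgt N W0 r ≤ wgt N W r)

theorem bad_count {N i m : ℕ} {F : Set (List Bool)} (hF : ∀ W ∈ F, W.length = m) (hi : i < m)
    {a b x y : List Bool} (ha : a.length = i * N) (hx : x.length = N) (hy : y.length = N)
    (h1 : BadAt N F i (a ++ (x ++ b))) (h2 : BadAt N F i (a ++ (y ++ b))) :
    x.count true = y.count true := by
  obtain ⟨W1, hW1, W0, hW0, hb1, hb0, hm1, hm0⟩ := h1
  obtain ⟨V1, hV1, V0, hV0, hc1, hc0, hn1, hn0⟩ := h2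
  have e1 := wgt_block N i m W1 a b x y (hF _ hW1) hi ha hx hy
  have e2 := wgt_block N i m W0 a b x y (hF _ hW0) hi ha hx hy
  have e3 := wgt_block N i m V1 a b x y (hF _ hV1) hi ha hx hy
  have e4 := wgt_block N i m V0 a b x y (hF _ hV0) hi ha hx hy
  rw [if_pos hb1, if_pos hb1] at e1
  rw [if_neg hb0, if_neg hb0] at e2
  rw [if_pos hc1, if_pos hc1] at e3
  rw [if_neg hc0, if_neg hc0] at e4
  have := hm1 _ hW0
  have := hm1 _ hV1
  have := hm1 _ hV0
  have := hm0 _ hW1
  have := hm0 _ hV1
  have := hm0 _ hV0
  have := hn1 _ hW0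
  have := hn1 _ hW1
  have := hn1 _ hV0
  have := hn0 _ hW1
  have := hn0 _ hV1
  have := hn0 _ hW0
  omega

theorem bad_card {N i m L : ℕ} {F : Set (List Bool)} (hF : ∀ W ∈ F, W.length = m) (hi : i < m)
    (hL : m * N ≤ L) :
    ((VF L).filter (BadAt N F i)).card ≤ 2 ^ (L - N) * N.choose (N / 2) := by
  have hiL : i * N + N ≤ L := by
    calc i * N + N = (i + 1) * N := by ring
      _ ≤ m * N := Nat.mul_le_mul_right _ hi
      _ ≤ L := hL
  have hsub : (VF L).filter (BadAt N F i) ⊆
      ((VF (i * N)) ×ˢ (VF (L - (i * N + N)))).biUnion (fun p =>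
        ((VF N).filter (fun x => BadAt N F i (p.1 ++ (x ++ p.2)))).image
          (fun x => p.1 ++ (x ++ p.2))) := by
    intro r hr
    rw [Finset.mem_filter, mem_VF] at hr
    obtain ⟨hr1, hr2⟩ := hr
    have hs : r = r.take (i * N) ++ ((r.drop (i * N)).take N ++ (r.drop (i * N)).drop N) := by
      rw [List.take_append_drop, List.take_append_drop]
    refine Finset.mem_biUnion.2 ⟨(r.take (i * N), (r.drop (i * N)).drop N), ?_, ?_⟩
    · rw [Finset.mem_product, mem_VF, mem_VF]
      refine ⟨?_, ?_⟩
      · simp; omega
      · simp; omega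
    · refine Finset.mem_image.2 ⟨(r.drop (i * N)).take N, ?_, hs.symm⟩
      rw [Finset.mem_filter, mem_VF]
      refine ⟨?_, ?_⟩
      · simp; omega
      · rw [← hs]; exact hr2
  calc _ ≤ _ := Finset.card_le_card hsub
    _ ≤ ((VF (i * N)) ×ˢ (VF (L - (i * N + N)))).card * N.choose (N / 2) := by
        apply Finset.card_biUnion_le_card_mul
        rintro ⟨a, b⟩ hp
        rw [Finset.mem_product, mem_VF, mem_VF] at hp
        refine Finset.card_image_le.trans ?_
        by_cases hne : ((VF N).filter (fun x => BadAt N F i (a ++ (x ++ b)))).Nonempty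
        · obtain ⟨y, hy⟩ := hne
          rw [Finset.mem_filter, mem_VF] at hy
          refine (Finset.card_le_card (t := (VF N).filter (fun l => l.count true = y.count true))
            ?_).trans ((card_count N _).trans (Nat.choose_le_middle _ _))
          intro x hx
          rw [Finset.mem_filter, mem_VF] at hx
          rw [Finset.mem_filter, mem_VF]
          exact ⟨hx.1, bad_count hF hi hp.1 hx.1 hy.1 hx.2 hy.2⟩
        · rw [Finset.not_nonempty_iff_eq_empty] at hne
          rw [hne]; simp
    _ = 2 ^ (L - N) * N.choose (N / 2) := by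
        rw [Finset.card_product, card_VF, card_VF, ← pow_add]
        congr 2
        omega

/-- the isolation lemma -/
theorem isolate (m N L : ℕ) (hm : 0 < m) (hN : 4 * m ^ 2 ≤ N) (hL : m * N ≤ L)
    (F : Set (List Bool)) (hF : ∀ W ∈ F, W.length = m) (hne : F.Nonempty) :
    2 ^ L ≤ 2 * {r : List Bool | r.length = L ∧
      ∃ W ∈ F, ∀ W' ∈ F, W' ≠ W → wgt N W r < wgt N W' r}.ncard := by
  set G : Finset (List Bool) := (VF L).filter (fun r =>
      ∃ W ∈ F, ∀ W' ∈ F, W' ≠ W → wgt N W r < wgt N W' r) with hG
  have hGe : {r : List Bool | r.length = L ∧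
      ∃ W ∈ F, ∀ W' ∈ F, W' ≠ W → wgt N W r < wgt N W' r} = (G : Set (List Bool)) := by
    ext r
    simp [hG, mem_VF]
  rw [hGe, Set.ncard_coe_finset]
  have hcov : VF L ⊆ G ∪ (Finset.range m).biUnion (fun i => (VF L).filter (BadAt N F i)) := by
    intro r hr
    by_cases hg : r ∈ G
    · exact Finset.mem_union_left _ hg
    · refine Finset.mem_union_right _ ?_
      obtain ⟨W, hW, hmin⟩ : ∃ W ∈ F, ∀ W' ∈ F, wgt N W r ≤ wgt N W' r := by
        obtain ⟨W, hW, h⟩ := (measure (fun W => wgt N W r)).wf.has_min F hne
        exact ⟨W, hW, fun W' hW' => not_lt.1 (h W' hW')⟩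
      have h2 : ∃ W' ∈ F, W' ≠ W ∧ wgt N W' r ≤ wgt N W r := by
        by_contra hcon
        push Not at hcon
        exact hg (Finset.mem_filter.2 ⟨hr, W, hW, hcon⟩)
      obtain ⟨V, hV, hVW, hle⟩ := h2
      have hVmin : ∀ W' ∈ F, wgt N V r ≤ wgt N W' r := fun W' hW' => hle.trans (hmin W' hW')
      obtain ⟨i, hi⟩ : ∃ i, V[i]? ≠ W[i]? := by
        by_contra hcon
        push Not at hcon
        exact hVW (List.ext_getElem? hcon)
      have him : i < m := by
        by_contra hlt
        push Not at hlt
        rw [List.getElem?_eq_none (by rw [hF _ hV]; exact hlt),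
          List.getElem?_eq_none (by rw [hF _ hW]; exact hlt)] at hi
        exact hi rfl
      refine Finset.mem_biUnion.2 ⟨i, Finset.mem_range.2 him, Finset.mem_filter.2 ⟨hr, ?_⟩⟩
      have hVi : V[i]? = some (V[i]'(by rw [hF _ hV]; exact him)) := List.getElem?_eq_getElem _
      have hWi : W[i]? = some (W[i]'(by rw [hF _ hW]; exact him)) := List.getElem?_eq_getElem _
      by_cases h3 : V[i]? = some true
      · exact ⟨V, hV, W, hW, h3, fun h => hi (h3.trans h.symm), hVmin, hmin⟩
      · have h4 : W[i]? = some true := by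
          rw [hVi] at h3 hi
          rw [hWi] at hi ⊢
          generalize W[i]'(by rw [hF _ hW]; exact him) = w at *
          generalize V[i]'(by rw [hF _ hV]; exact him) = v at *
          cases w <;> cases v <;> simp_all
        exact ⟨W, hW, V, hV, h4, h3, hmin, hVmin⟩
  have hcard : 2 ^ L ≤ G.card + m * (2 ^ (L - N) * N.choose (N / 2)) := by
    calc 2 ^ L = (VF L).card := (card_VF L).symm
      _ ≤ _ := Finset.card_le_card hcov
      _ ≤ _ := Finset.card_union_le _ _
      _ ≤ G.card + (Finset.range m).card * (2 ^ (L - N) * N.choose (N / 2)) := by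
          apply Nat.add_le_add_left
          apply Finset.card_biUnion_le_card_mul
          intro i hi
          exact bad_card hF (Finset.mem_range.1 hi) hL
      _ = _ := by rw [Finset.card_range]
  have hC : 2 * m * N.choose (N / 2) ≤ 2 ^ N := by
    rw [← Nat.pow_le_pow_iff_left (n := 2) (by norm_num)]
    calc (2 * m * N.choose (N / 2)) ^ 2 = 4 * m ^ 2 * (N.choose (N / 2)) ^ 2 := by ring
      _ ≤ (N + 1) * (N.choose (N / 2)) ^ 2 := Nat.mul_le_mul_right _ (by omega)
      _ ≤ 4 ^ N := choose_sq_le N (N / 2)
      _ = (2 ^ N) ^ 2 := by rw [← pow_mul, mul_comm, pow_mul]; norm_num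
  have hNL : N ≤ L := le_trans (Nat.le_mul_of_pos_left _ hm) hL
  have h5 : 2 * (m * (2 ^ (L - N) * N.choose (N / 2))) ≤ 2 ^ L := by
    calc 2 * (m * (2 ^ (L - N) * N.choose (N / 2))) = 2 ^ (L - N) * (2 * m * N.choose (N / 2)) := by
          ring
      _ ≤ 2 ^ (L - N) * 2 ^ N := Nat.mul_le_mul_left _ hC
      _ = 2 ^ L := by rw [← pow_add]; congr 1; omega
  omega

end Pool.Agent.ISO85
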