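import Pool.Agent.SCS.Main
import Pool.Agent.ISO85.Iso

/-!
# Sparse hard sets under threshold reductions: NP = RP
-/

set_option autoImplicit false

namespace Pool.Agent.ISO85

open Pool.Agent.PolyTime Pool.Agent.NegLim Pool.Agent.SCS Turing

/-- the language with characteristic function `L` is in RP: a polynomial-time machine with
`|x| ^ k + k` coins accepts the words of `L` with probability at least `1/2` and the other words
never -/
def InRP (L : List Bool → Bool) : Prop :=
  ∃ (V : List Bool → Bool) (k : ℕ),
    Nonempty (TM2ComputableInPolyTime (id : List Bool → List Bool)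
      (id : List Bool → List Bool) (fun y => [V y])) ∧
    (∀ x, L x = true → 2 ^ (x.length ^ k + k) ≤
      2 * {r : List Bool | r.length = x.length ^ k + k ∧ V (pairWord x r) = true}.ncard) ∧
    ∀ x r, r.length = x.length ^ k + k → V (pairWord x r) = true → L x = true

section
variable {α : Type} [Enc α]

theorem polyF_wgt {n : α → ℕ} {W r : α → List Bool} (hn : PolyF n) (hW : PolyF W)
    (hr : PolyF r) : PolyF (fun a => wgt (n a) (W a) (r a)) := by
  have h1 : PolyF (fun a => (W a).flatMap (fun b =>
      (fun q : α × Bool => List.replicate (n q.1) q.2) (a, b))) :=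
    PolyF.flatMap hW (PolyF.replicate (hn.comp (PolyF.fst PolyF.id)) (PolyF.snd PolyF.id))
  have h2 := PolyF.zip h1 hr
  have h3 : PolyF (fun a => (((W a).flatMap (fun b =>
      (fun q : α × Bool => List.replicate (n q.1) q.2) (a, b))).zip (r a)).filter
      (fun b => (fun q : α × Bool × Bool => q.2.1 && q.2.2) (a, b))) :=
    PolyF.filter h2 ((PolyF.fst (PolyF.snd PolyF.id)).and (PolyF.snd (PolyF.snd PolyF.id)))
  refine (PolyF.length h3).congr fun a => ?_
  rw [wgt, List.countP_eq_length_filter]

end

theorem wgt_le {N : ℕ} {W r : List Bool} : wgt N W r ≤ W.length * N := by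
  unfold wgt
  refine List.countP_le_length.trans ?_
  rw [List.length_zip, List.length_flatMap]
  simp

/-- a polynomial-time test of pairs (word, coins) puts a language into RP -/
theorem inRP_of_polyF {L : List Bool → Bool} {VV : List Bool × List Bool → Bool} (hVV : PolyF VV)
    (k : ℕ)
    (h1 : ∀ x, L x = true → 2 ^ (x.length ^ k + k) ≤
      2 * {r : List Bool | r.length = x.length ^ k + k ∧ VV (x, r) = true}.ncard)
    (h2 : ∀ x r, VV (x, r) = true → L x = true) : InRP L := by
  obtain ⟨G, hG, hGV⟩ := hVV
  have hpc : PC (fun y => [decide (G y = [true])]) := PC.comp pc_isTrue hG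
  have hv : ∀ x r : List Bool, decide (G (pairWord x r) = [true]) = true ↔
      VV (x, r) = true := by
    intro x r
    have h3 : G (pairWord x r) = [VV (x, r)] := hGV (x, r)
    rw [decide_eq_true_iff, h3]
    simp
  refine ⟨fun y => decide (G y = [true]), k, hpc.polyTime, fun x hx => ?_, fun x r _ hr => ?_⟩
  · have h4 : {r : List Bool | r.length = x.length ^ k + k ∧
        decide (G (pairWord x r) = [true]) = true} =
        {r : List Bool | r.length = x.length ^ k + k ∧ VV (x, r) = true} := by
      ext r
      simp only [Set.mem_ofPred_eq, hv]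
    rw [h4]
    exact h1 x hx
  · exact h2 x r ((hv x r).mp hr)

theorem inRP_of_sparse_hard {B : List Bool → Bool} (hB : Sparse B)
    (hred : ∀ A, InNP A → ThrReduces A B) {L : List Bool → Bool} (hL : InNP L) : InRP L := by
  obtain ⟨V, e, hV, hLiff⟩ := InNP.exists_V hL
  have hm0 : PolyF (fun x : List Bool => x.length ^ e + e) := by
    have h1 : PolyF (fun x : List Bool => x.length) := PolyF.length PolyF.id
    exact (h1.pow e).add (PolyF.const e)
  have hm : PolyF (fun x : List Bool => x.length ^ e + e + 1) := hm0.succ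
  have hN : PolyF (fun x : List Bool => 4 * (x.length ^ e + e + 1) ^ 2) :=
    (PolyF.const 4).mul (hm.pow 2)
  -- the number of coins
  obtain ⟨k₀, hk₀⟩ : ∃ k₀ : ℕ, ∀ n : ℕ,
      (n ^ e + e + 1) * (4 * (n ^ e + e + 1) ^ 2) ≤ n ^ k₀ + k₀ := by
    obtain ⟨k₀, h⟩ := exists_pow_bound
      ((Polynomial.X ^ e + Polynomial.C e + 1) *
        (Polynomial.C 4 * (Polynomial.X ^ e + Polynomial.C e + 1) ^ 2) : Polynomial ℕ)
    exact ⟨k₀, fun n => by simpa using h n⟩
  -- the test language
  have hVT : PolyF (fun q : (((List Bool × List Bool) × ℕ) × ℕ × List Bool × List Bool) ×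
      List Bool =>
      decide (q.2.length ≤ q.1.1.1.1.length ^ e + e) && (V (q.1.1.1.1, q.2) &&
      (decide (wgt (4 * (q.1.1.1.1.length ^ e + e + 1) ^ 2)
        (padW (q.1.1.1.1.length ^ e + e + 1) q.2) q.1.1.1.2 = q.1.1.2) &&
      parity q.1.2.2.2 (res q.1.2.2.1
        ((padW (q.1.1.1.1.length ^ e + e + 1) q.2).take q.1.2.1))))) := by
    have hp1 : PolyF (fun q : (((List Bool × List Bool) × ℕ) × ℕ × List Bool × List Bool) ×
      List Bool => q.1) := PolyF.id.fst
    have hp2 : PolyF (fun q : (((List Bool × List Bool) × ℕ) × ℕ × List Bool × List Bool) ×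
      List Bool => q.2) := PolyF.id.snd
    have hx : PolyF (fun q : (((List Bool × List Bool) × ℕ) × ℕ × List Bool × List Bool) ×
      List Bool => q.1.1.1.1) := hp1.fst.fst.fst
    have hr : PolyF (fun q : (((List Bool × List Bool) × ℕ) × ℕ × List Bool × List Bool) ×
      List Bool => q.1.1.1.2) := hp1.fst.fst.snd
    have ht : PolyF (fun q : (((List Bool × List Bool) × ℕ) × ℕ × List Bool × List Bool) ×
      List Bool => q.1.1.2) := hp1.fst.snd
    have hb : PolyF (fun q : (((List Bool × List Bool) × ℕ) × ℕ × List Bool × List Bool) ×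
      List Bool => q.1.2) := hp1.snd
    have hpad : PolyF (fun q : (((List Bool × List Bool) × ℕ) × ℕ × List Bool × List Bool) ×
      List Bool => padW (q.1.1.1.1.length ^ e + e + 1) q.2) := polyF_padW (hm.comp hx) hp2
    have hw := polyF_wgt (hN.comp hx) hpad hr
    exact ((PolyF.length hp2).le (hm0.comp hx)).and
      ((hV.comp (hx.pair hp2)).and ((hw.eqNat ht).and
        (polyF_parity hb.snd.snd (polyF_res hb.snd.fst (PolyF.take hb.fst hpad)))))
  have hBd : PolyBd (fun p : ((List Bool × List Bool) × ℕ) × ℕ × List Bool × List Bool =>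
      p.1.1.1.length ^ e + e) := (hm0.comp PolyF.id.fst.fst.fst).natBd
  obtain ⟨T, hT, hTiff⟩ := exists_inNP hVT hBd (by
    intro p w hw
    rw [Bool.and_eq_true, decide_eq_true_eq] at hw
    exact hw.1)
  obtain ⟨d, R, hR, hRd, hRacc⟩ := (hred T hT).typed
  have hR' : PolyF (fun p : ((List Bool × List Bool) × ℕ) × ℕ × List Bool × List Bool =>
      R (enc p)) := hR.comp PolyF.id.encF
  obtain ⟨Cand, hCand, hmem⟩ := lemmaA B hB d
    (fun p : ((List Bool × List Bool) × ℕ) × ℕ × List Bool × List Bool => R (enc p)) hR'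
    (fun p => hRd (enc p))
    (fun a : (List Bool × List Bool) × ℕ => a.1.1.length ^ e + e + 1)
    (hm.comp PolyF.id.fst.fst)
  -- the machine
  have hun : PolyF (fun p : ((List Bool × List Bool) × ℕ) × List Bool => unpadW p.2) :=
    polyF_unpadW PolyF.id.snd
  have hxx : PolyF (fun p : ((List Bool × List Bool) × ℕ) × List Bool => p.1.1.1) :=
    PolyF.id.fst.fst.fst
  have htest : PolyF (fun p : ((List Bool × List Bool) × ℕ) × List Bool =>
      decide ((unpadW p.2).length ≤ p.1.1.1.length ^ e + e) && V (p.1.1.1, unpadW p.2)) :=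
    ((PolyF.length hun).le (hm0.comp hxx)).and (hV.comp (hxx.pair hun))
  have hany : PolyF (fun a : (List Bool × List Bool) × ℕ => (Cand a).any fun W =>
      decide ((unpadW W).length ≤ a.1.1.length ^ e + e) && V (a.1.1, unpadW W)) :=
    PolyF.any hCand htest
  have hrange : PolyF (fun y : List Bool × List Bool =>
      List.range ((y.1.length ^ e + e + 1) * (4 * (y.1.length ^ e + e + 1) ^ 2) + 1)) := by
    have h1 := ((hm.comp (PolyF.id.fst : PolyF (fun y : List Bool × List Bool => y.1))).mul
      (hN.comp (PolyF.id.fst : PolyF (fun y : List Bool × List Bool => y.1)))).succ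
    exact PolyF.range h1
  have hVV := PolyF.any hrange hany
  refine inRP_of_polyF hVV k₀ (fun x hx => ?_) (fun x r hr => ?_)
  · -- enough coins
    obtain ⟨w₀, hw₀, hVw₀⟩ := (hLiff x).1 hx
    refine (isolate (x.length ^ e + e + 1) (4 * (x.length ^ e + e + 1) ^ 2)
      (x.length ^ k₀ + k₀) (Nat.succ_pos _) le_rfl (hk₀ _)
      {W | ∃ w : List Bool, w.length ≤ x.length ^ e + e ∧ V (x, w) = true ∧
        W = padW (x.length ^ e + e + 1) w} ?_ ⟨_, w₀, hw₀, hVw₀, rfl⟩).trans
      (Nat.mul_le_mul_left 2 (Set.ncard_le_ncard ?_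
        ((List.finite_length_eq Bool (x.length ^ k₀ + k₀)).subset fun r hr => hr.1)))
    · rintro W ⟨w, hw, -, rfl⟩
      exact length_padW (Nat.lt_succ_of_le hw)
    · rintro r ⟨hrl, W, ⟨w, hw, hVw, rfl⟩, hmin⟩
      refine ⟨hrl, ?_⟩
      rw [List.any_eq_true]
      refine ⟨wgt (4 * (x.length ^ e + e + 1) ^ 2) (padW (x.length ^ e + e + 1) w) r, ?_, ?_⟩
      · rw [List.mem_range]
        refine Nat.lt_succ_of_le (wgt_le.trans (le_of_eq ?_))
        rw [length_padW (Nat.lt_succ_of_le hw)]
      · rw [List.any_eq_true]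
        refine ⟨padW (x.length ^ e + e + 1) w, ?_, ?_⟩
        · refine hmem ((x, r), _) _ (length_padW (Nat.lt_succ_of_le hw)) ?_
          intro k _ f v _
          have h1 := hRacc (enc (((x, r), wgt (4 * (x.length ^ e + e + 1) ^ 2)
            (padW (x.length ^ e + e + 1) w) r), (k, f, v)))
          have h2 := hTiff (((x, r), wgt (4 * (x.length ^ e + e + 1) ^ 2)
            (padW (x.length ^ e + e + 1) w) r), (k, f, v))
          rw [h1] at h2
          refine h2.trans ?_
          constructor
          · rintro ⟨w', hw'⟩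
            simp only [Bool.and_eq_true, decide_eq_true_eq] at hw'
            obtain ⟨ha, hb, hc, hd⟩ := hw'
            have hEq : padW (x.length ^ e + e + 1) w' = padW (x.length ^ e + e + 1) w := by
              by_contra hne
              have := hmin _ ⟨w', ha, hb, rfl⟩ hne
              omega
            rw [hEq] at hd
            exact hd
          · intro hpar
            refine ⟨w, ?_⟩
            simp only [Bool.and_eq_true, decide_eq_true_eq]
            exact ⟨hw, hVw, trivial, hpar⟩
        · rw [unpadW_padW, Bool.and_eq_true, decide_eq_true_eq]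
          exact ⟨hw, hVw⟩
  · rw [List.any_eq_true] at hr
    obtain ⟨t, -, ht⟩ := hr
    rw [List.any_eq_true] at ht
    obtain ⟨W, -, hW⟩ := ht
    rw [Bool.and_eq_true, decide_eq_true_eq] at hW
    exact (hLiff x).2 ⟨unpadW W, hW.1, hW.2⟩

/-- RP is contained in NP -/
theorem inNP_of_inRP {L : List Bool → Bool} (h : InRP L) : InNP L := by
  obtain ⟨V, k, hV, h1, h2⟩ := h
  have hV2 : PolyF (fun p : List Bool × List Bool => V (pairWord p.1 p.2)) :=
    ClassesAux.polyF_pairV (ClassesAux.pc_bool_of_tm hV)
  have hm0 : PolyF (fun x : List Bool => x.length ^ k + k) := by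
    have h1 : PolyF (fun x : List Bool => x.length) := PolyF.length PolyF.id
    exact (h1.pow k).add (PolyF.const k)
  have hV3 : PolyF (fun p : List Bool × List Bool =>
      decide (p.2.length = p.1.length ^ k + k) && V (pairWord p.1 p.2)) :=
    ((PolyF.length (PolyF.snd PolyF.id)).eqNat (hm0.comp (PolyF.fst PolyF.id))).and hV2
  obtain ⟨L', hL', hiff⟩ := exists_inNP hV3 (B := fun x : List Bool => x.length ^ k + k)
    hm0.natBd (by
      intro a w hw
      rw [Bool.and_eq_true, decide_eq_true_eq] at hw
      exact hw.1.le)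
  have e : L' = L := by
    funext x
    have h3 := hiff x
    rw [enc_word] at h3
    rw [Bool.eq_iff_iff, h3]
    constructor
    · rintro ⟨w, hw⟩
      rw [Bool.and_eq_true, decide_eq_true_eq] at hw
      exact h2 x w hw.1 hw.2
    · intro hx
      have h4 := h1 x hx
      have h5 : {r : List Bool | r.length = x.length ^ k + k ∧
          V (pairWord x r) = true}.ncard ≠ 0 := by
        intro h0
        rw [h0] at h4
        have : 0 < 2 ^ (x.length ^ k + k) := by positivity
        omega
      obtain ⟨r, hr, hr2⟩ := Set.nonempty_of_ncard_ne_zero h5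
      refine ⟨r, ?_⟩
      rw [Bool.and_eq_true, decide_eq_true_eq]
      exact ⟨hr, hr2⟩
  rw [← e]
  exact hL'

/-- a sparse or co-sparse set hard for NP under threshold reductions gives NP = RP -/
theorem main_rp (B : List Bool → Bool) (hB : Sparse B ∨ Sparse (fun x => !B x))
    (hred : ∀ A, InNP A → ThrReduces A B) (L : List Bool → Bool) : InNP L ↔ InRP L := by
  refine ⟨fun hL => ?_, inNP_of_inRP⟩
  rcases hB with hB | hB
  · exact inRP_of_sparse_hard hB hred hL
  · exact inRP_of_sparse_hard hB (fun A hA => (hred A hA).compl) hL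

end Pool.Agent.ISO85
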